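import Mathlib
import Pool.Agent.Run7.h357.SauerC

/-!
# MP_78fef3_co (Sauer): no linear threshold forces quasiregular subgraphs

For every `k ≥ 2`, every real `C` and every real `F` there is a nonempty finite graph with at least
`F` times as many edges as vertices having no subgraph in which all degrees lie strictly between
`k` and `C * k`.
-/

namespace Pool.Agent.Results.MP_78fef3_co.NoQuasi

open Run7.h357.Sauer

/-- A subgraph `H` of `G` is `(k,C)`-quasiregular when it has at least one vertex and every vertex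
`x` of `H` satisfies `k < d_H(x) < C * k`, the degree being counted inside `H`. -/
def Quasiregular {V : Type} {G : SimpleGraph V} (k : ℕ) (C : ℝ) (H : G.Subgraph) : Prop :=
  H.verts.Nonempty ∧
    ∀ x ∈ H.verts, k < (H.neighborSet x).ncard ∧ ((H.neighborSet x).ncard : ℝ) < C * k

/-- the vertex set: `nn s t` bottom vertices and `t` layers -/
abbrev Vtx (s t : ℕ) : Type := Fin (nn s t) ⊕ (Σ i : Fin t, Fin (NN s t i.val))

/-- the layered graph of a choice `f`: the bottom vertex `v` is joined to `f i v` in layer `i` -/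
def layered {s t : ℕ} (f : (i : Fin t) → (Fin (nn s t) → Fin (NN s t i.val))) :
    SimpleGraph (Vtx s t) where
  Adj x y := (∃ v i, x = Sum.inl v ∧ y = Sum.inr ⟨i, f i v⟩) ∨
    (∃ v i, y = Sum.inl v ∧ x = Sum.inr ⟨i, f i v⟩)
  symm := ⟨fun _ _ h => h.symm⟩
  loopless := ⟨fun x h => by
    rcases h with ⟨v, i, h1, h2⟩ | ⟨v, i, h1, h2⟩ <;> subst h1 <;> simp at h2⟩

lemma layered_inl {s t : ℕ} {f : (i : Fin t) → (Fin (nn s t) → Fin (NN s t i.val))}
    {v : Fin (nn s t)} {y : Vtx s t} (h : (layered f).Adj (Sum.inl v) y) :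
    ∃ i, y = Sum.inr ⟨i, f i v⟩ := by
  rcases h with ⟨w, i, h1, h2⟩ | ⟨w, i, h1, h2⟩
  · rw [Sum.inl.injEq] at h1
    subst h1
    exact ⟨i, h2⟩
  · simp at h2

lemma layered_inr {s t : ℕ} {f : (i : Fin t) → (Fin (nn s t) → Fin (NN s t i.val))}
    {i : Fin t} {a : Fin (NN s t i.val)} {y : Vtx s t}
    (h : (layered f).Adj (Sum.inr ⟨i, a⟩) y) : ∃ v, y = Sum.inl v ∧ f i v = a := by
  rcases h with ⟨w, j, h1, h2⟩ | ⟨w, j, h1, h2⟩
  · simp at h1
  · rw [Sum.inr.injEq] at h2
    obtain ⟨rfl, h3⟩ := Sigma.mk.inj_iff.1 h2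
    exact ⟨w, h1, (eq_of_heq h3).symm⟩

/-- **Main theorem.** For every `k ≥ 2`, every `C` and every `F` there is a graph with at least
`F * |V|` edges without `(k,C)`-quasiregular subgraph. -/
theorem result : ∀ k : ℕ, 2 ≤ k → ∀ C F : ℝ,
    ∃ (V : Type) (_ : Fintype V) (_ : Nonempty V) (G : SimpleGraph V),
      F * (Fintype.card V : ℝ) ≤ (G.edgeSet.ncard : ℝ) ∧
        ∀ H : G.Subgraph, ¬ Quasiregular k C H := by
  classical
  intro k hk C F
  obtain ⟨M, hM⟩ := exists_nat_ge (C * k)
  obtain ⟨t0, ht0⟩ := exists_nat_ge (2 * F)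
  set t : ℕ := t0 + 1 with ht
  have htpos : 0 < t := by omega
  set s : ℕ := 9 * 4 ^ t + 28 * (t * M) with hs
  have hs1 : 9 * 4 ^ t ≤ s := by omega
  have hs0 : 0 < s := lt_of_lt_of_le (by positivity) hs1
  have hspow : s ≤ s ^ 24 := Nat.le_self_pow (by norm_num) s
  have hs2 : 28 * (t * M) ≤ s ^ 24 := by omega
  have hts : t ≤ s ^ 24 := by
    have : t < 4 ^ t := Nat.lt_pow_self (by norm_num)
    omega
  obtain ⟨f, hf⟩ := exists_good (M := M) hs1 htpos hs2
  have hVne : Nonempty (Vtx s t) := ⟨Sum.inl ⟨0, nn_pos hs0⟩⟩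
  refine ⟨Vtx s t, inferInstance, hVne, layered f, ?_, ?_⟩
  · -- number of edges
    have hcardV : Fintype.card (Vtx s t) ≤ 2 * nn s t := by
      rw [Fintype.card_sum, Fintype.card_fin, Fintype.card_sigma]
      have h1 : ∑ i : Fin t, Fintype.card (Fin (NN s t i.val)) ≤ t * NN s t 0 := by
        refine (Finset.sum_le_card_nsmul _ _ (NN s t 0) ?_).trans ?_
        · intro i _
          rw [Fintype.card_fin]
          exact NN_anti hs0 (Nat.zero_le _)
        · simp
      have h2 : NN s t 0 * s ^ 24 = nn s t := by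
        have := NN_mul (s := s) (t := t) (i := 0) (by omega)
        simpa using this
      have h3 : t * NN s t 0 ≤ nn s t := by
        rw [← h2, mul_comm]
        exact Nat.mul_le_mul_left _ hts
      omega
    have hedges : nn s t * t ≤ (layered f).edgeSet.ncard := by
      have hinj : Function.Injective (fun p : Fin (nn s t) × Fin t =>
          (s(Sum.inl p.1, Sum.inr ⟨p.2, f p.2 p.1⟩) : Sym2 (Vtx s t))) := by
        rintro ⟨v, i⟩ ⟨w, j⟩ h
        simp only [Sym2.eq_iff] at h
        rcases h with ⟨h1, h2⟩ | ⟨h1, h2⟩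
        · rw [Sum.inl.injEq] at h1
          rw [Sum.inr.injEq] at h2
          obtain ⟨h3, _⟩ := Sigma.mk.inj_iff.1 h2
          rw [h1, h3]
        · simp at h1
      have hsub : Set.range (fun p : Fin (nn s t) × Fin t =>
          (s(Sum.inl p.1, Sum.inr ⟨p.2, f p.2 p.1⟩) : Sym2 (Vtx s t))) ⊆
          (layered f).edgeSet := by
        rintro e ⟨p, rfl⟩
        rw [SimpleGraph.mem_edgeSet]
        exact Or.inl ⟨p.1, p.2, rfl, rfl⟩
      have h1 := Set.ncard_le_ncard hsub (Set.toFinite _)
      rw [← Set.image_univ, Set.ncard_image_of_injective _ hinj, Set.ncard_univ,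
        Nat.card_prod, Nat.card_fin, Nat.card_fin] at h1
      exact h1
    have h1 : (Fintype.card (Vtx s t) : ℝ) ≤ 2 * nn s t := by exact_mod_cast hcardV
    have h2 : (nn s t : ℝ) * t ≤ ((layered f).edgeSet.ncard : ℝ) := by exact_mod_cast hedges
    have h3 : 2 * F ≤ t := by
      have : (t : ℝ) = t0 + 1 := by rw [ht]; push_cast; rfl
      linarith
    have hn0 : (0 : ℝ) ≤ nn s t := by positivity
    rcases le_or_gt 0 F with hF | hF
    · calc F * (Fintype.card (Vtx s t) : ℝ) ≤ F * (2 * nn s t) :=
            mul_le_mul_of_nonneg_left h1 hF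
        _ = (nn s t : ℝ) * (2 * F) := by ring
        _ ≤ (nn s t : ℝ) * t := mul_le_mul_of_nonneg_left h3 hn0
        _ ≤ _ := h2
    · have : F * (Fintype.card (Vtx s t) : ℝ) ≤ 0 :=
        mul_nonpos_of_nonpos_of_nonneg hF.le (by positivity)
      exact this.trans (by positivity)
  · -- no quasiregular subgraph
    rintro H ⟨⟨x0, hx0⟩, hdeg⟩
    have hdeg' : ∀ x ∈ H.verts, 3 ≤ (H.neighborSet x).ncard ∧ (H.neighborSet x).ncard ≤ M := by
      intro x hx
      obtain ⟨h1, h2⟩ := hdeg x hx
      refine ⟨by omega, ?_⟩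
      have : ((H.neighborSet x).ncard : ℝ) ≤ M := by linarith
      exact_mod_cast this
    set S : Fin (nn s t) → Finset (Fin t) := fun v =>
      Finset.univ.filter (fun i => H.Adj (Sum.inl v) (Sum.inr ⟨i, f i v⟩)) with hS
    have memS : ∀ v i, i ∈ S v ↔ H.Adj (Sum.inl v) (Sum.inr ⟨i, f i v⟩) := by
      intro v i
      simp [hS]
    -- degrees of bottom vertices
    have hN1 : ∀ v, H.neighborSet (Sum.inl v) =
        ((S v).image (fun i => (Sum.inr ⟨i, f i v⟩ : Vtx s t)) : Finset (Vtx s t)) := by
      intro v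
      ext y
      simp only [SimpleGraph.Subgraph.mem_neighborSet, Finset.coe_image, Set.mem_image,
        Finset.mem_coe]
      constructor
      · intro hy
        obtain ⟨i, rfl⟩ := layered_inl hy.adj_sub
        exact ⟨i, (memS v i).2 hy, rfl⟩
      · rintro ⟨i, hi, rfl⟩
        exact (memS v i).1 hi
    have hN2 : ∀ v, (H.neighborSet (Sum.inl v)).ncard = (S v).card := by
      intro v
      rw [hN1, Set.ncard_coe_finset, Finset.card_image_of_injective]
      intro i j hij
      simp only [Sum.inr.injEq] at hij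
      exact (Sigma.mk.inj_iff.1 hij).1
    -- degrees of layer vertices
    have hN3 : ∀ (i : Fin t) (v : Fin (nn s t)),
        (H.neighborSet (Sum.inr ⟨i, f i v⟩)).ncard =
          ((VV S i).filter (fun w => f i w = f i v)).card := by
      intro i v
      have : H.neighborSet (Sum.inr ⟨i, f i v⟩) =
          (((VV S i).filter (fun w => f i w = f i v)).image
            (fun w => (Sum.inl w : Vtx s t)) : Finset (Vtx s t)) := by
        ext y
        simp only [SimpleGraph.Subgraph.mem_neighborSet, Finset.coe_image, Set.mem_image,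
          Finset.mem_coe, Finset.mem_filter, VV, Finset.mem_univ, true_and]
        constructor
        · intro hy
          obtain ⟨w, rfl, hw⟩ := layered_inr hy.adj_sub
          refine ⟨w, ⟨?_, hw⟩, rfl⟩
          rw [memS, hw]
          exact hy.symm
        · rintro ⟨w, ⟨hw1, hw2⟩, rfl⟩
          rw [memS, hw2] at hw1
          exact hw1.symm
      rw [this, Set.ncard_coe_finset, Finset.card_image_of_injective _ Sum.inl_injective]
    have hmemv : ∀ v i, i ∈ S v → Sum.inl v ∈ H.verts ∧ Sum.inr ⟨i, f i v⟩ ∈ H.verts := by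
      intro v i hi
      have := (memS v i).1 hi
      exact ⟨this.fst_mem, this.snd_mem⟩
    refine hf S ⟨?_, ?_, ?_⟩ ?_
    · -- nonempty support
      have h1 := (hdeg' x0 hx0).1
      obtain ⟨y, hy⟩ : (H.neighborSet x0).Nonempty := by
        rw [← Set.ncard_pos (Set.toFinite _)]
        omega
      have hy' : H.Adj x0 y := hy
      rcases x0 with v | ⟨i, a⟩
      · obtain ⟨i, rfl⟩ := layered_inl hy'.adj_sub
        refine ⟨v, ?_⟩
        simp only [supp, Finset.mem_filter, Finset.mem_univ, true_and]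
        exact ⟨i, (memS v i).2 hy'⟩
      · obtain ⟨v, rfl, rfl⟩ := layered_inr hy'.adj_sub
        refine ⟨v, ?_⟩
        simp only [supp, Finset.mem_filter, Finset.mem_univ, true_and]
        exact ⟨i, (memS v i).2 hy'.symm⟩
    · rintro v ⟨i, hi⟩
      have h1 := (hdeg' _ (hmemv v i hi).1).1
      rw [hN2] at h1
      exact h1
    · intro i
      have h1 := Finset.card_le_mul_card_image_of_maps_to (s := VV S i)
        (t := (Finset.univ : Finset (Fin (NN s t i.val)))) (f := f i)
        (fun _ _ => Finset.mem_univ _) M (by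
          intro a _
          by_cases hne : ((VV S i).filter (fun w => f i w = a)).Nonempty
          · obtain ⟨v, hv⟩ := hne
            simp only [Finset.mem_filter, VV, Finset.mem_univ, true_and] at hv
            obtain ⟨hv1, rfl⟩ := hv
            rw [← hN3]
            exact (hdeg' _ (hmemv v i hv1).2).2
          · rw [Finset.not_nonempty_iff_eq_empty] at hne
            rw [hne]
            simp)
      simpa using h1
    · rw [compat, Fintype.mem_piFinset]
      intro i
      simp only [Fib3, Finset.mem_filter, Finset.mem_univ, true_and]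
      intro v hv
      rw [← hN3]
      simp only [VV, Finset.mem_filter, Finset.mem_univ, true_and] at hv
      exact (hdeg' _ (hmemv v i hv).2).1

end Pool.Agent.Results.MP_78fef3_co.NoQuasi
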